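import Mathlib

namespace Pool.Agent.MP_db5b97_nt.H58

open MvPolynomial

/-- The conjugate `φ⁻¹ ∘ f ∘ φ` of a polynomial map `f` by an invertible matrix `φ`. -/
noncomputable def conj {N : ℕ} (φ : GL (Fin (N + 1)) (AlgebraicClosure ℚ))
    (f : Fin (N + 1) → MvPolynomial (Fin (N + 1)) (AlgebraicClosure ℚ)) :
    Fin (N + 1) → MvPolynomial (Fin (N + 1)) (AlgebraicClosure ℚ) :=
  fun i => ∑ j, C (φ⁻¹.val i j) * aeval (fun k => ∑ l, C (φ.val k l) * X l) (f j)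

end Pool.Agent.MP_db5b97_nt.H58
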