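import Pool.Agent.MP_db5b97_nt.H58.Block
import Pool.Agent.MP_db5b97_nt.H58.Defs

/-! Assembling the blocks. -/

namespace Pool.Agent.MP_db5b97_nt.H58

open Module MvPolynomial Matrix

/-- A linear map after the power map. -/
noncomputable def pw {ι : Type} [Fintype ι] (d : ℕ) (A : Matrix ι ι Qb) :
    ι → MvPolynomial ι Qb := fun i => ∑ l, C (A i l) * X l ^ d

lemma eval_pw {ι : Type} [Fintype ι] (d : ℕ) (A : Matrix ι ι Qb) (x : ι → Qb) :
    (fun i => eval x (pw d A i)) = A *ᵥ fun l => x l ^ d := by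
  funext i
  simp [pw, mulVec, dotProduct]

lemma eval_conj {N : ℕ} (φ : GL (Fin (N + 1)) Qb)
    (f : Fin (N + 1) → MvPolynomial (Fin (N + 1)) Qb) (x : Fin (N + 1) → Qb) :
    (fun i => eval x (conj φ f i)) = φ⁻¹.val *ᵥ fun j => eval (φ.val *ᵥ x) (f j) := by
  funext i
  simp only [conj, map_sum, map_mul, eval_C, mulVec, dotProduct]
  refine Finset.sum_congr rfl fun j _ => ?_
  rw [← coe_aeval_eq_eval, ← coe_aeval_eq_eval]
  congr 1
  change aeval x (aeval _ (f j)) = aeval _ (f j)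
  rw [comp_aeval_apply]
  congr 2
  funext k
  simp [mulVec, dotProduct]

lemma conj_of_mod {N d : ℕ} {A : Matrix (Fin (N + 1)) (Fin (N + 1)) Qb} (h : Mod d A)
    (τ : Qb ≃ₐ[ℚ] Qb) : ∃ φ : GL (Fin (N + 1)) Qb,
      ∀ i, MvPolynomial.map (τ : Qb →+* Qb) (pw d A i) = conj φ (pw d A) i := by
  obtain ⟨κ, t, ht, h⟩ := h τ
  let P : Matrix (Fin (N + 1)) (Fin (N + 1)) Qb := .of fun i j => if j = κ.symm i then t j else 0
  have hP : ∀ x j, (P *ᵥ x) (κ j) = t j * x j := fun x j => by simp [P, mulVec, dotProduct]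
  have hU : IsUnit P := mulVec_injective_iff_isUnit.mp fun x y hxy => funext fun j =>
    mul_left_cancel₀ (ht j) (by rw [← hP, ← hP, hxy])
  refine ⟨hU.unit, fun i => MvPolynomial.funext fun x => ?_⟩
  have h1 : MvPolynomial.map (τ : Qb →+* Qb) (pw d A i) = pw d (A.map τ) i := by simp [pw]
  rw [h1]
  refine congrFun ((eval_pw d _ x).trans (Eq.trans ?_ (eval_conj _ _ x).symm)) i
  rw [eval_pw]
  refine mulVec_injective_iff_isUnit.mpr hU ?_
  rw [mulVec_mulVec _ P hU.unit⁻¹.val, IsUnit.mul_val_inv, one_mulVec, IsUnit.unit_spec]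
  funext j
  obtain ⟨j, rfl⟩ := κ.surjective j
  rw [hP, mulVec, mulVec, dotProduct, dotProduct, ← κ.sum_comp (fun l => A (κ j) l * _),
    Finset.mul_sum]
  refine Finset.sum_congr rfl fun l _ => ?_
  rw [hP, mul_pow, ← mul_assoc, ← mul_assoc, ← h]
  rfl

lemma monomial_of {ι : Type} [Fintype ι] [DecidableEq ι] {d : ℕ} (hd : 2 ≤ d)
    {η A A' : Matrix ι ι Qb} (hη : IsUnit η) (hA : IsUnit A') {c : Qb} (hc : c ≠ 0)
    (h : ∀ w, η *ᵥ (A *ᵥ fun l => w l ^ d) = c • A' *ᵥ fun l => (η *ᵥ w) l ^ d) :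
    ∃ (μ : ι ≃ ι) (s : ι → Qb), (∀ j, s j ≠ 0) ∧ (∀ j l, η j l = if l = μ j then s j else 0) ∧
      ∀ j l, s j * A (μ j) (μ l) = c * A' j l * s l ^ d := by
  have hd0 : d ≠ 0 := by omega
  have h1 : ∀ j a b, η j a ≠ 0 → η j b ≠ 0 → a = b := by
    intro j a b ha hb
    by_contra hab
    let u : ι → Qb := Pi.single a (η j a)⁻¹
    let v : ι → Qb := Pi.single b (η j b)⁻¹
    have h2 : (fun l => (u + v) l ^ d) = (fun l => u l ^ d) + fun l => v l ^ d := by
      funext l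
      by_cases h3 : l = a
      · subst h3; simp [v, hab, hd0]
      · simp [u, h3, hd0]
    have h3 := h (u + v)
    rw [h2, mulVec_add, mulVec_add, h u, h v, ← smul_add, ← mulVec_add] at h3
    have h4 := congrFun (mulVec_injective_iff_isUnit.mpr hA (smul_right_injective _ hc h3)) j
    simp only [Pi.add_apply, mulVec_add, u, v, mulVec_single, Pi.smul_apply, col_apply,
      MulOpposite.smul_eq_mul_unop, MulOpposite.unop_op, mul_inv_cancel₀ ha, mul_inv_cancel₀ hb,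
      one_pow, one_add_one_eq_two] at h4
    have h5 : 2 ^ 1 = 2 ^ d := by exact_mod_cast h4
    have := Nat.pow_right_injective le_rfl h5
    omega
  have h2 : ∀ j, ∃ a, η j a ≠ 0 := fun j => by
    by_contra h2
    push Not at h2
    exact (linearIndependent_rows_iff_isUnit.mpr hη).ne_zero j (funext h2)
  choose μ hμ using h2
  have h3 : Function.Surjective μ := fun a => by
    by_contra h3
    push Not at h3
    refine (linearIndependent_cols_iff_isUnit.mpr hη).ne_zero a (funext fun j => ?_)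
    by_contra h4
    exact h3 j (h1 j _ _ (hμ j) h4)
  have h4 := Finite.injective_iff_surjective.mpr h3
  have h5 : ∀ j l, η j l = if l = μ j then η j (μ j) else 0 := fun j l => by
    split_ifs with h5
    · rw [h5]
    · by_contra h6
      exact h5 (h1 j _ _ h6 (hμ j))
  have h6 : ∀ w j, (η *ᵥ w) j = η j (μ j) * w (μ j) := fun w j => by
    rw [mulVec, dotProduct, Finset.sum_congr rfl fun l _ => by rw [h5 j l]]
    simp
  refine ⟨Equiv.ofBijective μ ⟨h4, h3⟩, fun j => η j (μ j), hμ, h5, fun j l => ?_⟩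
  have h7 := congrFun (h (Pi.single (μ l) 1)) j
  have h8 : (fun i => (Pi.single (μ l) (1 : Qb) : ι → Qb) i ^ d) = Pi.single (μ l) 1 := by
    funext i
    by_cases h : i = μ l <;> simp [h, hd0]
  have h9 : (fun i => (η *ᵥ Pi.single (μ l) (1 : Qb)) i ^ d) = Pi.single l (η l (μ l) ^ d) := by
    funext i
    rw [h6]
    by_cases h : i = l <;> simp [h, hd0, h4.eq_iff]
  rw [h8, h9, h6] at h7
  simpa [mul_assoc] using h7

lemma desc_of_def {N d : ℕ} (hd : 2 ≤ d) {A : Matrix (Fin (N + 1)) (Fin (N + 1)) Qb}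
    (hA : IsUnit A) {L : IntermediateField ℚ Qb} {φ : GL (Fin (N + 1)) Qb} {c : Qb} (hc : c ≠ 0)
    (h : ∀ i m, coeff m (C c * conj φ (pw d A) i) ∈ L) : Desc d A L φ.val := by
  intro τ hτ
  let g : (Fin (N + 1) → Qb) → Fin (N + 1) → Qb := fun x i => eval x (C c * conj φ (pw d A) i)
  have hg : ∀ x, g x = c • φ⁻¹.val *ᵥ (A *ᵥ fun l => (φ.val *ᵥ x) l ^ d) := fun x => by
    rw [← eval_pw, ← eval_conj]
    funext i
    simp [g]
  have hτg : ∀ x, (fun i => τ (g x i)) = g fun i => τ (x i) := fun x => funext fun i => by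
    have h1 : MvPolynomial.map (τ : Qb →+* Qb) (C c * conj φ (pw d A) i)
        = C c * conj φ (pw d A) i := by
      ext m
      rw [coeff_map]
      exact (L.mem_fixingSubgroup_iff τ).mp hτ _ (h i m)
    simp only [g]
    conv_rhs => rw [← h1, eval_map]
    exact eval₂_comp (τ : Qb →+* Qb) x _
  have hm : ∀ (P : Matrix (Fin (N + 1)) (Fin (N + 1)) Qb) (v : Fin (N + 1) → Qb),
      (fun i => τ ((P *ᵥ v) i)) = P.map τ *ᵥ fun i => τ (v i) := fun P v => by
    funext i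
    simp [mulVec, dotProduct]
  have hU : ∀ {P : Matrix (Fin (N + 1)) (Fin (N + 1)) Qb}, IsUnit P → IsUnit (P.map τ) :=
    fun hP => hP.map (τ : Qb →+* Qb).mapMatrix
  obtain ⟨μ, s, hs, h1, h2⟩ := monomial_of hd (η := φ.val.map τ * φ⁻¹.val) (A := A)
    ((hU φ.isUnit).mul φ⁻¹.isUnit) (hU hA) (c := τ c / c)
    (div_ne_zero (by simpa using hc) hc) (fun w => by
      obtain ⟨x, hx⟩ : ∃ x : Fin (N + 1) → Qb, (fun i => τ (x i)) = φ⁻¹.val *ᵥ w :=
        ⟨fun i => τ.symm _, funext fun i => τ.apply_symm_apply _⟩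
      have h3 : φ.val *ᵥ g x = c • A *ᵥ fun l => (φ.val *ᵥ x) l ^ d := by
        rw [hg, mulVec_smul, mulVec_mulVec, Units.mul_inv, one_mulVec]
      have h4 := hm φ.val (g x)
      rw [h3, hτg, hx, hg, mulVec_mulVec w, Units.mul_inv, one_mulVec, mulVec_smul,
        mulVec_mulVec] at h4
      rw [div_eq_inv_mul, mul_smul, eq_inv_smul_iff₀ hc, ← h4, ← mulVec_mulVec w, ← hx, ← hm]
      funext i
      simp only [Pi.smul_apply, smul_eq_mul, map_mul, ← map_pow, ← hm])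
  refine ⟨μ, s, _, hs, fun j l => ?_, h2⟩
  have h3 : φ.val.map τ = (φ.val.map τ * φ⁻¹.val) * φ.val := by
    rw [mul_assoc, Units.inv_mul, mul_one]
  have h4 := congrFun (congrFun h3 j) l
  rw [Matrix.mul_apply] at h4
  simpa only [h1, map_apply, ite_mul, zero_mul, Finset.sum_ite_eq', Finset.mem_univ, if_true]
    using h4

lemma exists_cols {m n : Type} [Fintype m] [DecidableEq m] [Fintype n] (P : Matrix m n Qb)
    (h : Function.Surjective P.mulVec) : ∃ c : m → n, IsUnit (P.submatrix id c) := by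
  obtain ⟨κ, a, -, h1, h2⟩ := exists_linearIndependent' Qb P.col
  rw [← range_mulVecLin, LinearMap.range_eq_top.mpr h] at h1
  let e := (Pi.basisFun Qb m).indexEquiv (Basis.mk h2 h1.ge)
  exact ⟨a ∘ e, linearIndependent_cols_iff_isUnit.mp (h2.comp e e.injective)⟩

section Blocks

variable {β : Type} [Fintype β] [DecidableEq β] {n : β → ℕ} [∀ b, NeZero (n b)] {d : ℕ}
  {A : ∀ b, Matrix (ZMod (n b)) (ZMod (n b)) Qb}

lemma isUnit_blocks (h : ∀ b, IsUnit (A b)) : IsUnit (blockDiagonal' A) := by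
  refine IsUnit.of_mul_eq_one (blockDiagonal' fun b => (h b).unit⁻¹.val) ?_
  rw [← blockDiagonal'_mul, ← blockDiagonal'_one]
  congr 1
  funext b
  exact (h b).mul_val_inv

omit [Fintype β] [∀ b, NeZero (n b)] in
lemma mod_blocks (h : ∀ b, Mod d (A b)) : Mod d (blockDiagonal' A) := by
  intro τ
  choose κ t ht h using fun b => h b τ
  refine ⟨Equiv.sigmaCongrRight κ, fun j => t j.1 j.2, fun j => ht _ _, ?_⟩
  rintro ⟨b, j⟩ ⟨b', l⟩
  by_cases hb : b = b'
  · subst hb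
    simpa using h b j l
  · simp [blockDiagonal'_apply_ne _ _ _ hb]

omit [Fintype β] in
lemma desc_block (h0 : ∀ b j l, A b j l ≠ 0) {L : IntermediateField ℚ Qb} {ι : Type} [Fintype ι]
    {φ : Matrix (Σ b, ZMod (n b)) ι Qb} (hφ : Function.Surjective φ.mulVec)
    (h : Desc d (blockDiagonal' A) L φ) (b : β) (hb : ∀ b', n b' = n b → b' = b) :
    ∃ ψ : Matrix (ZMod (n b)) (ZMod (n b)) Qb, IsUnit ψ ∧ Desc d (A b) L ψ := by
  obtain ⟨c, hc⟩ := exists_cols (φ.submatrix (Sigma.mk b) id) fun v => by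
    obtain ⟨y, hy⟩ := hφ fun i => if h : i.1 = b then v (h ▸ i.2) else 0
    exact ⟨y, funext fun j => (congrFun hy ⟨b, j⟩).trans (by simp)⟩
  refine ⟨_, hc, fun τ hτ => ?_⟩
  obtain ⟨μ, s, c', hs, h1, h2⟩ := h τ hτ
  have h3 : ∀ i j, blockDiagonal' A i j ≠ 0 ↔ i.1 = j.1 := by
    rintro ⟨b, j⟩ ⟨b', l⟩
    by_cases hb : b = b'
    · subst hb
      simp [h0]
    · simp [blockDiagonal'_apply_ne _ _ _ hb, hb]
  have hc' : c' ≠ 0 := by
    rintro rfl
    exact mul_ne_zero (hs ⟨b, 0⟩) ((h3 _ _).mpr rfl) (by rw [h2 _ ⟨b, 0⟩, zero_mul, zero_mul])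
  have h4 : ∀ i j, i.1 = j.1 ↔ (μ i).1 = (μ j).1 := fun i j => by
    rw [← h3, ← h3 (μ i), ← mul_ne_zero_iff_left (hs i) (b := blockDiagonal' A (μ i) _), h2]
    simp [hc', hs]
  have h5 : (μ ⟨b, 0⟩).1 = b := by
    refine hb _ ?_
    have := Fintype.card_congr (((Equiv.sigmaSubtype b).symm.trans
      (μ.subtypeEquiv (q := fun i => i.1 = (μ ⟨b, 0⟩).1) fun i => h4 i ⟨b, 0⟩)).trans
      (Equiv.sigmaSubtype _))
    simpa using this.symm
  have h6 : ∀ j : ZMod (n b), ∃ j' : ZMod (n b), μ ⟨b, j⟩ = ⟨b, j'⟩ := fun j => by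
    have h7 : (μ ⟨b, j⟩).1 = b := ((h4 ⟨b, j⟩ ⟨b, 0⟩).mp rfl).trans h5
    generalize μ ⟨b, j⟩ = i at h7
    obtain ⟨b', j'⟩ := i
    subst h7
    exact ⟨j', rfl⟩
  choose ν hν using h6
  have h7 : Function.Injective ν := fun i j hij => by
    simpa using μ.injective (show μ ⟨b, i⟩ = μ ⟨b, j⟩ by rw [hν, hν, hij])
  refine ⟨Equiv.ofBijective ν (Finite.injective_iff_bijective.mp h7), fun j => s ⟨b, j⟩, c',
    fun j => hs _, fun j l => ?_, fun j l => ?_⟩
  · simpa [hν] using h1 ⟨b, j⟩ (c l)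
  · simpa [hν] using h2 ⟨b, j⟩ ⟨b, l⟩

end Blocks

theorem exists_matrix (N d : ℕ) (hd : 2 ≤ d) (S : Finset ℕ) (hS : ∀ n ∈ S, n ∣ d - 1)
    (hN : ∑ n ∈ S, n ≤ N + 1) : ∃ A : Matrix (Fin (N + 1)) (Fin (N + 1)) Qb, IsUnit A ∧ Mod d A ∧
      ∀ (L : IntermediateField ℚ Qb) [FiniteDimensional ℚ L]
        (φ : Matrix (Fin (N + 1)) (Fin (N + 1)) Qb), IsUnit φ → Desc d A L φ →
        S.lcm id ∣ finrank ℚ L := by
  let n : S ⊕ Fin (N + 1 - ∑ n ∈ S, n) → ℕ := Sum.elim (fun a => a.1) fun _ => 1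
  have hn : ∀ b, n b ∣ d - 1 := by
    rintro (a | a)
    · exact hS _ a.2
    · exact one_dvd _
  have : ∀ b, NeZero (n b) := fun b => ⟨ne_zero_of_dvd_ne_zero (by omega) (hn b)⟩
  choose A h1 h2 h3 h4 using fun b => exists_block (n b) d (hn b) (by omega)
  let e : Fin (N + 1) ≃ Σ b, ZMod (n b) := (Fintype.equivFinOfCardEq (by
    simp only [Fintype.card_sigma, ZMod.card, Fintype.sum_sum_type, n, Sum.elim_inl, Sum.elim_inr]
    rw [Finset.sum_coe_sort S fun a => a]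
    simp
    omega)).symm
  refine ⟨(blockDiagonal' A).submatrix e e, ?_, fun τ => ?_, fun L _ φ hφ h => ?_⟩
  · exact (isUnit_blocks h1).map (reindexAlgEquiv Qb Qb e.symm)
  · obtain ⟨κ, t, ht, h⟩ := mod_blocks h3 τ
    exact ⟨(e.trans κ).trans e.symm, fun j => t (e j), fun j => ht _, fun j l => by
      simpa using h (e j) (e l)⟩
  · refine Finset.lcm_dvd fun a ha => ?_
    rcases eq_or_ne a 1 with rfl | ha1
    · exact one_dvd _
    obtain ⟨ψ, hψ, h5⟩ := desc_block (d := d) (L := L) h2 (φ := φ.submatrix e.symm id)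
      (fun v => by
        obtain ⟨y, hy⟩ := mulVec_surjective_iff_isUnit.mpr hφ (v ∘ e)
        exact ⟨y, funext fun j => (congrFun hy (e.symm j)).trans (by simp)⟩)
      (fun τ hτ => by
        obtain ⟨μ, s, c, hs, h5, h6⟩ := h τ hτ
        exact ⟨(e.symm.trans μ).trans e, fun j => s (e.symm j), c, fun j => hs _,
          fun j l => by simpa using h5 (e.symm j) l,
          fun j l => by simpa using h6 (e.symm j) (e.symm l)⟩)
      (Sum.inl ⟨a, ha⟩) (by
        rintro (b | b) hb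
        · exact congrArg _ (Subtype.ext hb)
        · exact absurd hb.symm ha1)
    exact h4 _ L ψ hψ h5

end Pool.Agent.MP_db5b97_nt.H58
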