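import Pool.Agent.MP_db5b97_nt.H58.Cyc

/-! One block of the construction. -/

namespace Pool.Agent.MP_db5b97_nt.H58

open Module Polynomial Matrix

/-- The algebraic numbers. -/
abbrev Qb : Type := AlgebraicClosure ℚ

instance : IsGalois ℚ Qb := @IsAlgClosure.isGalois ℚ Qb _ _ _ (AlgebraicClosure.instIsAlgClosure ℚ) _

/-- Every conjugate of the matrix is a twisted monomial conjugate. -/
def Mod {ι : Type} (d : ℕ) (A : Matrix ι ι Qb) : Prop :=
  ∀ τ : Qb ≃ₐ[ℚ] Qb, ∃ (κ : ι ≃ ι) (t : ι → Qb), (∀ j, t j ≠ 0) ∧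
    ∀ j l, t j * τ (A j l) = A (κ j) (κ l) * t l ^ d

/-- Descent data. -/
def Desc {ι ι' : Type} (d : ℕ) (A : Matrix ι ι Qb) (L : IntermediateField ℚ Qb)
    (φ : Matrix ι ι' Qb) : Prop :=
  ∀ τ ∈ L.fixingSubgroup, ∃ (μ : ι ≃ ι) (s : ι → Qb) (c : Qb), (∀ j, s j ≠ 0) ∧
    (∀ j l, τ (φ j l) = s j * φ (μ j) l) ∧ ∀ j l, s j * A (μ j) (μ l) = c * τ (A j l) * s l ^ d

lemma ev_ne {P : Qb[X]} (hP : P ≠ 0) : ∀ᶠ x : ℚ in Filter.cofinite, P.eval (x : Qb) ≠ 0 := by
  rw [Filter.eventually_cofinite]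
  refine ((P.rootSet_finite Qb).preimage (f := fun x : ℚ => (x : Qb))
    Rat.cast_injective.injOn).subset fun x hx => ?_
  simpa [mem_rootSet, hP] using hx

lemma pow_val_add {G : Type} [Monoid G] {n : ℕ} [NeZero n] {a : G} (h : a ^ n = 1)
    (i j : ZMod n) : a ^ (i + j).val = a ^ i.val * a ^ j.val := by
  rw [ZMod.val_add, ← pow_eq_pow_mod _ h, pow_add]

lemma rigid {d : ℕ} {a a' b b' e e' r r' c : Qb} (hr : r ≠ 0) (hr' : r' ≠ 0)
    (h1 : r * a = c * a' * r ^ d) (h2 : r' * b = c * b' * r ^ d) (h3 : r * e = c * e' * r' ^ d) :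
    a ^ (d + 1) * (b' ^ d * e') = a' ^ (d + 1) * (b ^ d * e) := by
  have h4 : r * a * b' = r' * b * a' := by rw [h1, h2]; ring
  have h5 : a * e' * r' ^ d = a' * e * r ^ d :=
    mul_left_cancel₀ hr (by linear_combination e' * r' ^ d * h1 - a' * r ^ d * h3)
  have h6 := congrArg (· ^ d) h4
  simp only [mul_pow] at h6
  refine mul_left_cancel₀ (pow_ne_zero d (mul_ne_zero hr hr')) ?_
  rw [mul_pow]
  linear_combination (a * e' * r' ^ d) * h6 + (r' ^ d * b ^ d * a' ^ d) * h5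

/-- The vectors which are rational after a change of coordinates. -/
noncomputable def ratl {ι : Type} [Fintype ι] [DecidableEq ι] (L : IntermediateField ℚ Qb) (ψ : Matrix ι ι Qb) :
    Submodule ℚ (ι → Qb) :=
  (Submodule.pi Set.univ fun _ => L.toSubalgebra.toSubmodule).map (ψ.mulVecLin.restrictScalars ℚ)

lemma finrank_ratl {ι : Type} [Fintype ι] [DecidableEq ι] (L : IntermediateField ℚ Qb)
    {ψ : Matrix ι ι Qb} (hψ : IsUnit ψ) : Nonempty ((ι → L) ≃ₗ[ℚ] ratl L ψ) := by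
  let e : (ι → L) ≃ₗ[ℚ] (Submodule.pi Set.univ fun _ : ι => L.toSubalgebra.toSubmodule) :=
    { toFun := fun v => ⟨fun i => v i, fun i _ => (v i).2⟩
      invFun := fun v i => ⟨v.1 i, v.2 i trivial⟩
      map_add' := fun _ _ => rfl
      map_smul' := fun _ _ => rfl
      left_inv := fun _ => rfl
      right_inv := fun _ => rfl }
  exact ⟨e.trans (Submodule.equivMapOfInjective (ψ.mulVecLin.restrictScalars ℚ)
    (mulVec_injective_iff_isUnit.mpr hψ) _)⟩

lemma mem_ratl {ι : Type} [Fintype ι] [DecidableEq ι] {L : IntermediateField ℚ Qb}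
    {ψ : Matrix ι ι Qb} (hψ : IsUnit ψ) (μ : (Qb ≃ₐ[ℚ] Qb) → ι → ι) (s : (Qb ≃ₐ[ℚ] Qb) → ι → Qb)
    (hs : ∀ τ ∈ L.fixingSubgroup, ∀ j, s τ j ≠ 0) (hμ : ∀ τ, Function.Surjective (μ τ))
    (h : ∀ τ ∈ L.fixingSubgroup, ∀ j l, τ (ψ j l) = s τ j * ψ (μ τ j) l) (v : ι → Qb) :
    v ∈ ratl L ψ ↔ ∀ τ ∈ L.fixingSubgroup, ∀ j, τ (v j) = s τ j * v (μ τ j) := by
  obtain ⟨y, rfl⟩ := mulVec_surjective_iff_isUnit.mpr hψ v
  have key : ∀ τ ∈ L.fixingSubgroup, ∀ j,
      τ ((ψ *ᵥ y) j) = s τ j * (ψ *ᵥ fun i => τ (y i)) (μ τ j) := by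
    intro τ hτ j
    simp only [mulVec, dotProduct, map_sum, map_mul, h τ hτ, Finset.mul_sum, mul_assoc]
  constructor
  · rintro ⟨y', hy', e⟩ τ hτ j
    obtain rfl : y' = y := mulVec_injective_iff_isUnit.mpr hψ e
    rw [key τ hτ]
    congr 3
    funext i
    exact (L.mem_fixingSubgroup_iff τ).mp hτ _ (hy' i trivial)
  · refine fun hv => ⟨y, fun i _ => ?_, rfl⟩
    change y i ∈ L
    rw [← InfiniteGalois.fixedField_fixingSubgroup L, IntermediateField.mem_fixedField_iff]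
    intro τ hτ
    refine congrFun (mulVec_injective_iff_isUnit.mpr hψ (a₁ := fun i => τ (y i)) ?_) i
    funext j
    obtain ⟨j, rfl⟩ := hμ τ j
    exact mul_left_cancel₀ (hs τ hτ j) ((key τ hτ j).symm.trans (hv τ hτ j))

theorem exists_block (n d : ℕ) [NeZero n] (hnd : n ∣ d - 1) (hd : 1 ≤ d) :
    ∃ A : Matrix (ZMod n) (ZMod n) Qb, IsUnit A ∧ (∀ j l, A j l ≠ 0) ∧ Mod d A ∧
      ∀ (L : IntermediateField ℚ Qb) [FiniteDimensional ℚ L] (ψ : Matrix (ZMod n) (ZMod n) Qb),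
        IsUnit ψ → Desc d A L ψ → n ∣ finrank ℚ L := by
  have hn := NeZero.ne n
  obtain ⟨M, _, _, _, _, σ, p, hp, hM, hσ, hN⟩ := exists_cyc n hn
  let ι : M →ₐ[ℚ] Qb := IsAlgClosed.lift
  have ho : orderOf σ = n := by
    rw [orderOf_eq_card_of_forall_mem_zpowers hσ, IsGalois.card_aut_eq_finrank, hM]
  have hσn : σ ^ n = 1 := ho ▸ pow_orderOf_eq_one σ
  obtain ⟨π, hπ⟩ := IsAlgClosed.exists_pow_nat_eq (p : Qb) (Nat.pos_of_ne_zero hn)
  have hπ0 : π ≠ 0 := by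
    rintro rfl
    rw [zero_pow hn] at hπ
    exact Nat.cast_ne_zero.mpr hp hπ.symm
  have hk : ∀ τ : Qb ≃ₐ[ℚ] Qb, ∃ k : ZMod n, ∀ (j : ZMod n) (m : M),
      τ (ι ((σ ^ j.val) m)) = ι ((σ ^ (j + k).val) m) := by
    intro τ
    let _ : Algebra M Qb := ι.toRingHom.toAlgebra
    have : IsScalarTower ℚ M Qb := IsScalarTower.of_algHom ι
    obtain ⟨k, hk⟩ := (mem_powers_iff_mem_zpowers.mpr (hσ (τ.restrictNormal M)))
    refine ⟨k, fun j m => ?_⟩
    rw [add_comm, pow_val_add hσn, ZMod.val_natCast, ← pow_eq_pow_mod _ hσn, AlgEquiv.mul_apply,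
      show σ ^ k = _ from hk]
    exact (AlgEquiv.restrictNormal_commutes τ M _).symm
  choose k hk using hk
  let ζ : (Qb ≃ₐ[ℚ] Qb) → Qb := fun τ => τ π / π
  have hζ : ∀ τ : Qb ≃ₐ[ℚ] Qb, τ π = ζ τ * π := fun τ => (div_mul_cancel₀ _ hπ0).symm
  have hζn : ∀ τ, ζ τ ^ n = 1 := fun τ => by
    rw [div_pow, ← map_pow, hπ, map_natCast, div_self (Nat.cast_ne_zero.mpr hp)]
  have hζ0 : ∀ τ, ζ τ ≠ 0 := fun τ h => by simpa [h, hn] using hζn τ
  have hζd : ∀ τ (j : ℕ), (ζ τ ^ j) ^ d = ζ τ ^ j := fun τ j => by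
    obtain ⟨e, he⟩ := hnd
    rw [show d = n * e + 1 by omega, pow_succ, pow_mul, pow_right_comm _ j n, hζn, one_pow, one_pow,
      one_mul]
  obtain ⟨θ, hθ⟩ := Field.exists_primitive_element ℚ M
  let th : ZMod n → Qb := fun j => ι ((σ ^ j.val) θ)
  have hth : Function.Injective th := by
    intro i j h
    have h1 : σ ^ i.val = σ ^ j.val := by
      refine AlgEquiv.coe_toAlgHom_injective (AlgHom.ext_of_adjoin_eq_top (s := {θ}) ?_ ?_)
      · rw [← IntermediateField.adjoin_simple_toSubalgebra_of_isAlgebraic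
          (Algebra.IsAlgebraic.isAlgebraic θ), hθ, IntermediateField.top_toSubalgebra]
      · rintro _ rfl
        exact ι.injective h
    rw [pow_eq_pow_iff_modEq, ho] at h1
    exact ZMod.val_injective n (h1.eq_of_lt_of_lt (ZMod.val_lt i) (ZMod.val_lt j))
  let A₀ : Matrix (ZMod n) (ZMod n) Qb := .of fun j l => if j = l then th j else π ^ (l - j).val
  obtain ⟨x, hx1, hx2, hx3⟩ : ∃ x : ℚ, (-A₀).charpoly.eval (x : Qb) ≠ 0 ∧
      (∀ j, (X + C (th j)).eval (x : Qb) ≠ 0) ∧ ∀ j j' l l' : ZMod n, j ≠ j' →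
      ((X + C (th j)) ^ (d + 1) * C ((π ^ (j' - l').val) ^ d * π ^ (l' - j').val) -
        (X + C (th j')) ^ (d + 1) * C ((π ^ (j - l).val) ^ d * π ^ (l - j).val)).eval (x : Qb)
          ≠ 0 := by
    refine ((ev_ne (charpoly_monic _).ne_zero).and (Filter.Eventually.and ?_ ?_)).exists
    · exact Filter.eventually_all.mpr fun j => ev_ne (X_add_C_ne_zero _)
    · simp only [Filter.eventually_all]
      refine fun j j' l l' hj => ev_ne fun h => ?_
      have := congrArg (eval (-th j)) h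
      simp [hπ0, neg_add_eq_sub, sub_eq_zero, hth.eq_iff, hj.symm] at this
  let A : Matrix (ZMod n) (ZMod n) Qb := scalar _ (x : Qb) + A₀
  have hA1 : ∀ j, A j j = x + th j := fun j => by simp [A, A₀]
  have hA2 : ∀ j l, j ≠ l → A j l = π ^ (l - j).val := fun j l h => by simp [A, A₀, h]
  have hA0 : ∀ j l, A j l ≠ 0 := fun j l => by
    by_cases h : j = l
    · rw [← h, hA1]; simpa using hx2 j
    · rw [hA2 j l h]; exact pow_ne_zero _ hπ0
  have hA3 : ∀ τ j l, ζ τ ^ j.val * τ (A j l) = A (j + k τ) (l + k τ) * (ζ τ ^ l.val) ^ d := by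
    intro τ j l
    rw [hζd]
    by_cases h : j = l
    · rw [← h, hA1, hA1, map_add, map_ratCast, hk, mul_comm]
    · rw [hA2 j l h, hA2 _ _ (by simpa using h), map_pow, hζ, mul_pow, ← mul_assoc,
        ← pow_val_add (hζn τ), add_sub_add_right_eq_sub, add_sub_cancel, mul_comm]
  refine ⟨A, ?_, hA0, fun τ => ⟨Equiv.addRight (k τ), fun j => ζ τ ^ j.val,
    fun j => pow_ne_zero _ (hζ0 τ), hA3 τ⟩, fun L _ ψ hψ hD => ?_⟩
  · rw [isUnit_iff_isUnit_det, isUnit_iff_ne_zero]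
    rwa [eval_charpoly, sub_neg_eq_add] at hx1
  have hz : ∀ τ : Qb ≃ₐ[ℚ] Qb, ∃ z : Qb, τ ∈ L.fixingSubgroup → z ≠ 0 ∧
      ∀ j l, τ (ψ j l) = z / ζ τ ^ j.val * ψ (j + k τ) l := by
    intro τ
    by_cases hτ : τ ∈ L.fixingSubgroup
    swap
    · exact ⟨0, fun h => absurd h hτ⟩
    obtain ⟨μ, s, c, hs, h1, h2⟩ := hD τ hτ
    have hr : ∀ j, s j * ζ τ ^ j.val ≠ 0 := fun j => mul_ne_zero (hs j) (pow_ne_zero _ (hζ0 τ))
    have h3 : ∀ j l, s j * ζ τ ^ j.val * A (μ j) (μ l)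
        = c * A (j + k τ) (l + k τ) * (s l * ζ τ ^ l.val) ^ d := fun j l => by
      rw [mul_pow]
      linear_combination ζ τ ^ j.val * h2 j l + c * s l ^ d * hA3 τ j l
    have h4 : ∀ j, μ j = j + k τ := by
      intro j
      by_contra hne
      obtain ⟨l, hl⟩ : ∃ l, l ≠ j := by
        by_contra h
        push Not at h
        exact hne ((h _).trans (h _).symm)
      have h5 := rigid (hr j) (hr l) (h3 j j) (h3 l j) (h3 j l)
      rw [hA1, hA1, hA2 _ _ (μ.injective.ne hl), hA2 _ _ (μ.injective.ne hl.symm),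
        hA2 _ _ (by simpa using hl), hA2 _ _ (by simpa using hl.symm)] at h5
      refine hx3 _ _ (μ l) (l + k τ) hne ?_
      simp only [eval_sub, eval_mul, eval_pow, eval_add, eval_X, eval_C]
      exact sub_eq_zero.mpr h5
    refine ⟨s 0 * ζ τ ^ (0 : ZMod n).val, fun _ => ⟨hr 0, fun j l => ?_⟩⟩
    have h5 : ∀ j, s j * ζ τ ^ j.val = c * (s 0 * ζ τ ^ (0 : ZMod n).val) ^ d := fun j => by
      have := h3 j 0
      rw [h4, h4] at this
      exact mul_right_cancel₀ (hA0 _ _) (this.trans (mul_right_comm _ _ _))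
    rw [h1, h4, h5 0, ← h5 j, mul_div_cancel_right₀ _ (pow_ne_zero _ (hζ0 τ))]
  choose z hz using hz
  have hW := mem_ratl hψ (fun τ j => j + k τ) (fun τ j => z τ / ζ τ ^ j.val)
    (fun τ hτ j => div_ne_zero (hz τ hτ).1 (pow_ne_zero _ (hζ0 τ)))
    (fun τ => (Equiv.addRight (k τ)).surjective) (fun τ hτ => (hz τ hτ).2)
  obtain ⟨e⟩ := finrank_ratl L hψ
  have := e.finiteDimensional
  let ρ : M →ₐ[ℚ] End ℚ (ratl L ψ) :=
    { toFun := fun m =>
        { toFun := fun v => ⟨fun j => ι ((σ ^ j.val) m) * v.1 j, (hW _).mpr fun τ hτ j => by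
            rw [map_mul, hk, (hW _).mp v.2 τ hτ j, mul_left_comm]⟩
          map_add' := fun v w => Subtype.ext (funext fun j => mul_add _ _ _)
          map_smul' := fun q v => Subtype.ext (funext fun j => mul_smul_comm q _ _) }
      map_one' := by ext; simp
      map_mul' := fun _ _ => by ext; simp [mul_assoc]
      map_zero' := by ext; simp
      map_add' := fun _ _ => by ext; simp [add_mul]
      commutes' := fun q => by ext; simp [Algebra.smul_def] }
  have hone : ∀ {G : Type} [Monoid G] {a : G}, a ^ n = 1 → a ^ (1 : ZMod n).val = a := by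
    intro G _ a ha
    rw [← Nat.cast_one, ZMod.val_natCast, ← pow_eq_pow_mod _ ha, pow_one]
  let u : End ℚ (ratl L ψ) :=
    { toFun := fun v => ⟨fun j => π * v.1 (j + 1), (hW _).mpr fun τ hτ j => by
        rw [map_mul, (hW _).mp v.2 τ hτ, hζ, pow_val_add (hζn τ), hone (hζn τ), add_right_comm]
        have := hζ0 τ
        field_simp⟩
      map_add' := fun v w => Subtype.ext (funext fun j => mul_add _ _ _)
      map_smul' := fun q v => Subtype.ext (funext fun j => mul_smul_comm q _ _) }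
  have hu : ∀ (i : ℕ) (v : ratl L ψ) (j : ZMod n), ((u ^ i) v).1 j = π ^ i * v.1 (j + i) := by
    intro i
    induction i with
    | zero => simp
    | succ i ih =>
      intro v j
      rw [pow_succ, End.mul_apply, ih, pow_succ, mul_assoc, Nat.cast_succ, ← add_assoc]
      rfl
  refine dvd_of_semilinear hn σ hM hN ρ u (fun m => ?_) ?_ ?_
  · ext v j
    change π * (ι ((σ ^ (j + 1).val) m) * _) = ι ((σ ^ j.val) (σ m)) * (π * _)
    rw [pow_val_add hσn, hone hσn, mul_left_comm]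
    rfl
  · ext v j
    rw [hu, hπ]
    simp
  · rw [← e.finrank_eq, finrank_pi_fintype]
    simp

end Pool.Agent.MP_db5b97_nt.H58
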