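import Mathlib

/-! Cyclic extensions of the rationals with an inert prime, and semilinear operators. -/

namespace Pool.Agent.MP_db5b97_nt.H58

open NumberField Module

lemma prime_of_orderOf {l p : ℕ} [Fact l.Prime] [hp : Fact p.Prime] (K : Type) [Field K]
    [NumberField K] [IsCyclotomicExtension {l} ℚ K] (hpl : ¬ p ∣ l)
    (h : orderOf (p : ZMod l) = l - 1) : Prime (p : 𝓞 K) := by
  have : (Ideal.span {(p : ℤ)}).IsMaximal := Int.ideal_span_isMaximal_of_prime p
  obtain ⟨⟨P, hP1, hP2⟩⟩ := (Ideal.span {(p : ℤ)}).nonempty_primesOver (S := 𝓞 K)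
  have h1 := IsCyclotomicExtension.Rat.inertiaDeg_eq_of_not_dvd p K P hpl
  have h2 := Ideal.pow_inertiaDeg p P
  have h3 := Ideal.absNorm_span_natCast (S := 𝓞 K) p
  rw [RingOfIntegers.rank, IsCyclotomicExtension.Rat.finrank l K,
    Nat.totient_prime Fact.out, ← h, ← h1, h2] at h3
  have h4 : P ∣ Ideal.span {(p : 𝓞 K)} := by
    rw [Ideal.dvd_span_singleton]
    have := (Ideal.mem_of_liesOver P (Ideal.span {(p : ℤ)}) p).mp (Ideal.mem_span_singleton_self _)
    simpa using this
  obtain ⟨Q, hQ⟩ := h4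
  have h5 : Ideal.absNorm P ≠ 0 := by rw [← h2]; exact pow_ne_zero _ hp.out.ne_zero
  rw [hQ, map_mul, mul_eq_left₀ h5, Ideal.absNorm_eq_one_iff] at h3
  rw [h3, Ideal.mul_top] at hQ
  rwa [← Ideal.span_singleton_prime (Nat.cast_ne_zero.mpr hp.out.ne_zero), hQ]

lemma dvd_of_norm {K : Type} [Field K] [NumberField K] {p : ℕ} (hp : Prime (p : 𝓞 K))
    {n s : ℕ} (g : ℕ → K ≃ₐ[ℚ] K) (x : K) (h : ∏ j ∈ Finset.range n, g j x = (p : K) ^ s) :
    n ∣ s := by
  obtain ⟨a, b, hb, rfl⟩ := IsFractionRing.div_surjective (𝓞 K) x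
  replace hb : b ≠ 0 := nonZeroDivisors.ne_zero hb
  have key : ∀ c : 𝓞 K, emultiplicity (p : 𝓞 K)
      (∏ j ∈ Finset.range n, RingOfIntegers.mapRingEquiv (g j).toRingEquiv c)
      = n * emultiplicity (p : 𝓞 K) c := by
    intro c
    rw [Finset.emultiplicity_prod hp, Finset.sum_congr rfl (g := fun _ => emultiplicity (p : 𝓞 K) c),
      Finset.sum_const, Finset.card_range, nsmul_eq_mul]
    intro j _
    rw [← emultiplicity_map_eq (RingOfIntegers.mapRingEquiv (g j).toRingEquiv) (a := (p : 𝓞 K))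
      (b := c), map_natCast]
  have h1 : ∏ j ∈ Finset.range n, RingOfIntegers.mapRingEquiv (g j).toRingEquiv a
      = (p : 𝓞 K) ^ s * ∏ j ∈ Finset.range n, RingOfIntegers.mapRingEquiv (g j).toRingEquiv b := by
    apply FaithfulSMul.algebraMap_injective (𝓞 K) K
    simp only [map_div₀, Finset.prod_div_distrib] at h
    rw [div_eq_iff (Finset.prod_ne_zero_iff.mpr fun j _ => by simpa using hb)] at h
    simp only [map_prod, map_mul, map_pow, map_natCast]
    exact h
  have h2 := key a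
  rw [h1, emultiplicity_mul hp, key b, emultiplicity_pow_self_of_prime hp,
    (FiniteMultiplicity.of_prime_left hp hb).emultiplicity_eq_multiplicity] at h2
  rcases eq_or_ne n 0 with rfl | hn
  · simpa using h2
  have ha : a ≠ 0 := by
    rintro rfl
    rw [emultiplicity_zero, ENat.mul_top (by simpa using hn)] at h2
    exact absurd h2 (by norm_cast)
  rw [(FiniteMultiplicity.of_prime_left hp ha).emultiplicity_eq_multiplicity] at h2
  norm_cast at h2
  exact (Nat.dvd_add_left (Dvd.intro _ rfl)).mp (h2 ▸ Dvd.intro _ rfl)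

theorem exists_cyc (n : ℕ) (hn : n ≠ 0) : ∃ (M : Type) (_ : Field M) (_ : Algebra ℚ M)
    (_ : FiniteDimensional ℚ M) (_ : IsGalois ℚ M) (σ : M ≃ₐ[ℚ] M) (p : ℕ), p ≠ 0 ∧
    finrank ℚ M = n ∧ (∀ g, g ∈ Subgroup.zpowers σ) ∧
    ∀ (x : M) (s : ℕ), ∏ j ∈ Finset.range n, (σ ^ j) x = (p : M) ^ s → n ∣ s := by
  obtain ⟨l, hl, -, hln⟩ := Nat.exists_prime_gt_modEq_one 0 hn
  have : Fact l.Prime := ⟨hl⟩
  obtain ⟨u, hu⟩ := IsCyclic.exists_generator (α := (ZMod l)ˣ)
  obtain ⟨p, hpl, hp, hpu⟩ := Nat.forall_exists_prime_gt_and_eq_mod u.isUnit l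
  have : Fact p.Prime := ⟨hp⟩
  let K := CyclotomicField l ℚ
  have : IsCyclotomicExtension {l} ℚ K := CyclotomicField.isCyclotomicExtension l ℚ
  have hou : orderOf u = l - 1 := by
    rw [orderOf_eq_card_of_forall_mem_zpowers hu, Nat.card_eq_fintype_card, ZMod.card_units]
  have hprime : Prime (p : 𝓞 K) := prime_of_orderOf (l := l) K
    (fun h => absurd (Nat.le_of_dvd hl.pos h) (by omega)) (by rw [hpu, orderOf_units, hou])
  have : IsGalois ℚ K := IsCyclotomicExtension.isGalois {l} ℚ K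
  let e := IsCyclotomicExtension.Rat.galEquivZMod l K
  let τ : K ≃ₐ[ℚ] K := e.symm u
  have hτ : ∀ g, g ∈ Subgroup.zpowers τ := fun g => by
    obtain ⟨k, hk⟩ := hu (e g)
    exact ⟨k, e.injective (by simpa [τ] using hk)⟩
  have hoτ : orderOf τ = l - 1 := by rw [← hou]; exact e.symm.orderOf_eq u
  obtain ⟨r, hr⟩ : n ∣ l - 1 := (Nat.modEq_iff_dvd' hl.one_le).mp hln.symm
  have hr0 : r ≠ 0 := by
    rintro rfl
    have := hl.two_le
    omega
  let H := Subgroup.zpowers (τ ^ n)
  have : H.Normal := ⟨fun a ha g => by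
    obtain ⟨i, rfl⟩ := hτ a
    obtain ⟨j, rfl⟩ := hτ g
    simp only at ha ⊢
    rwa [← zpow_neg, ← zpow_add, ← zpow_add, add_comm j, add_assoc, add_neg_cancel, add_zero]⟩
  let M := IntermediateField.fixedField H
  have : IsGalois ℚ M := IsGalois.of_fixedField_normal_subgroup H
  refine ⟨M, inferInstance, inferInstance, inferInstance, inferInstance,
    AlgEquiv.restrictNormalHom M τ, p, hp.ne_zero, ?_, fun g => ?_, fun x s h => ?_⟩
  · have h1 := finrank_mul_finrank ℚ M K
    rw [IntermediateField.finrank_fixedField_eq_card, Nat.card_zpowers, orderOf_pow' _ hn, hoτ,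
      IsCyclotomicExtension.Rat.finrank l K, Nat.totient_prime hl, hr, Nat.gcd_mul_right_left,
      Nat.mul_div_cancel_left _ (Nat.pos_of_ne_zero hn)] at h1
    exact Nat.eq_of_mul_eq_mul_right (Nat.pos_of_ne_zero hr0) h1
  · obtain ⟨g, rfl⟩ := AlgEquiv.restrictNormalHom_surjective (F := ℚ) (K₁ := M) K g
    obtain ⟨i, rfl⟩ := hτ g
    exact ⟨i, (map_zpow _ _ _).symm⟩
  · refine dvd_of_norm hprime (fun j => τ ^ j) x ?_
    have := congrArg (algebraMap M K) h
    simp only [map_prod, map_pow, map_natCast] at this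
    rw [← this]
    refine Finset.prod_congr rfl fun j _ => ?_
    rw [← map_pow (AlgEquiv.restrictNormalHom M)]
    exact (AlgEquiv.restrictNormal_commutes (τ ^ j) M x).symm

theorem dvd_of_semilinear {M W : Type} [Field M] [Algebra ℚ M] [AddCommGroup W] [Module ℚ W]
    [FiniteDimensional ℚ W] {n p s : ℕ} (hn : n ≠ 0) (σ : M ≃ₐ[ℚ] M)
    (hM : finrank ℚ M = n)
    (hp : ∀ (x : M) (s : ℕ), ∏ j ∈ Finset.range n, (σ ^ j) x = (p : M) ^ s → n ∣ s)
    (ρ : M →ₐ[ℚ] End ℚ W) (u : End ℚ W) (hu : ∀ m, u * ρ m = ρ (σ m) * u)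
    (hup : u ^ n = p) (hW : finrank ℚ W = n * s) : n ∣ s := by
  let : Module M W := Module.compHom W ρ.toRingHom
  have hs : ∀ (m : M) (w : W), m • w = ρ m w := fun _ _ => rfl
  have : IsScalarTower ℚ M W := ⟨fun q m w => by rw [hs, hs, map_smul]; rfl⟩
  have : FiniteDimensional M W := Module.Finite.of_restrictScalars_finite ℚ M W
  have h1 := finrank_mul_finrank ℚ M W
  rw [hM, hW] at h1
  replace h1 := Nat.eq_of_mul_eq_mul_left (Nat.pos_of_ne_zero hn) h1
  let b := finBasisOfFinrankEq M W h1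
  have hu' : ∀ (m : M) (w : W), u (m • w) = σ m • u w := fun m w => congrArg (· w) (hu m)
  let U : ℕ → Matrix (Fin s) (Fin s) M := fun k => .of fun i j => b.repr ((u ^ k) (b j)) i
  have h2 : ∀ k, U (k + 1) = U 1 * (U k).map σ := by
    intro k
    ext i j
    simp only [U, Matrix.of_apply, Matrix.mul_apply, Matrix.map_apply, pow_one]
    rw [pow_succ', End.mul_apply]
    conv_lhs => rw [← b.sum_repr ((u ^ k) (b j))]
    simp only [map_sum, hu', map_smul, Finsupp.finsetSum_apply, Finsupp.smul_apply, smul_eq_mul,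
      mul_comm]
  have h3 : ∀ k, (U k).det = ∏ j ∈ Finset.range k, (σ ^ j) (U 1).det := by
    intro k
    induction k with
    | zero =>
      have : U 0 = 1 := by
        ext i j
        simp [U, Matrix.one_apply, Finsupp.single_apply, eq_comm]
      simp [this]
    | succ k ih =>
      rw [h2, Matrix.det_mul, Finset.prod_range_succ', ← AlgEquiv.mapMatrix_apply,
        ← AlgEquiv.map_det, ih, map_prod, mul_comm]
      simp [pow_succ']
  refine hp (U 1).det s ?_
  have : U n = (p : M) • (1 : Matrix (Fin s) (Fin s) M) := by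
    ext i j
    simp only [U, Matrix.of_apply, hup, End.natCast_apply, Matrix.smul_apply]
    rw [← Nat.cast_smul_eq_nsmul M, map_smul]
    simp [Matrix.one_apply, Finsupp.single_apply, eq_comm]
  rw [← h3, this, Matrix.det_smul, Matrix.det_one, Fintype.card_fin, mul_one]

end Pool.Agent.MP_db5b97_nt.H58
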